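import Pool.Agent.Helper66.PD.Stmts

/-! Row CRD: the number of colours. -/

set_option autoImplicit false

namespace Pool.Agent.Helper66.PD

theorem st_CRD : ST_CRD := by
  intro w h
  simp only [Col, CW, Fintype.card_prod, Fintype.card_fun, Fintype.card_finset, Fintype.card_fin,
    Fintype.card_bool, mul_pow]
  ring

end Pool.Agent.Helper66.PD
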